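import Pool.Agent.H122R2.FdF.Main
import Pool.Agent.H122R2.FdF.Count
import Pool.Agent.H122R2.FdF.TaskH2

/-!
# The Fon-der-Flaass conjecture

Every `K_4^3`-free 3-graph produced by the Fon-der-Flaass construction from an oriented graph
without induced oriented 4-cycle has density at most `5/9`.
-/

set_option autoImplicit false
open Finset
open scoped Classical

namespace Pool.Agent.Results.MP_f1799f_co.FonDerFlaass

/-- `R` is (the arc relation of) an oriented graph on `n` vertices: no loops, and at most one arc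
between two vertices. -/
def IsOriented {n : ℕ} (R : Fin n → Fin n → Prop) : Prop := ∀ x y, R x y → ¬ R y x

/-- `R` has no induced oriented 4-cycle `a → b → c → d → a` (`a,c` and `b,d` not joined by an
arc; in an oriented graph the four vertices are automatically distinct). -/
def NoInducedC4 {n : ℕ} (R : Fin n → Fin n → Prop) : Prop :=
  ¬ ∃ a b c d : Fin n, R a b ∧ R b c ∧ R c d ∧ R d a ∧ ¬ R a c ∧ ¬ R c a ∧ ¬ R b d ∧ ¬ R d b

/-- The Fon-der-Flaass 3-graph `G(R)`: the triples with a vertex joined by an arc to neither of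
the other two, or with a vertex which sends arcs to both others. -/
noncomputable def fdf {n : ℕ} (R : Fin n → Fin n → Prop) : Finset (Finset (Fin n)) :=
  (Finset.univ.powersetCard 3).filter fun s : Finset (Fin n) =>
    ∃ x ∈ s, (∀ y ∈ s, y ≠ x → (¬ R x y ∧ ¬ R y x)) ∨ (∀ y ∈ s, y ≠ x → R x y)

/-- The `K_4^3`-free 3-graph of the Fon-der-Flaass construction: all triples not in `G(R)`. -/
noncomputable def construction {n : ℕ} (R : Fin n → Fin n → Prop) : Finset (Finset (Fin n)) :=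
  (Finset.univ.powersetCard 3) \ fdf R

/-- The 3-graph `G` has no four vertices spanning all four triples. -/
def K43Free {n : ℕ} (G : Finset (Finset (Fin n))) : Prop :=
  ∀ S : Finset (Fin n), S.card = 4 → ∃ s ⊆ S, s.card = 3 ∧ s ∉ G

theorem card_construction {n : ℕ} (R : Fin n → Fin n → Prop) :
    ((construction R).card : ℝ) = ((n.choose 3 : ℕ) : ℝ) - ((fdf R).card : ℝ) := by
  have h1 : fdf R ⊆ Finset.univ.powersetCard 3 := filter_subset _ _
  have h2 := card_sdiff_add_card_eq_card h1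
  have h3 : ((Finset.univ : Finset (Fin n)).powersetCard 3).card = n.choose 3 := by
    rw [card_powersetCard, card_univ, Fintype.card_fin]
  unfold construction
  rw [h3] at h2
  have h4 : ((n.choose 3 : ℕ) : ℝ) = (((Finset.univ : Finset (Fin n)).powersetCard 3 \ fdf R).card : ℝ)
      + ((fdf R).card : ℝ) := by
    rw [← h2]; push_cast; ring
  linarith

theorem choose_three (n : ℕ) :
    ((n.choose 3 : ℕ) : ℝ) = (n : ℝ) ^ 3 / 6 - (n : ℝ) ^ 2 / 2 + (n : ℝ) / 3 := by
  induction n with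
  | zero => simp
  | succ n ih =>
    have h2 : ((n.choose 2 : ℕ) : ℝ) = (n : ℝ) * ((n : ℝ) - 1) / 2 := Nat.cast_choose_two ℝ n
    rw [Nat.choose_succ_succ' n 2]
    push_cast
    rw [ih, h2]
    ring

theorem c4free {n : ℕ} {R : Fin n → Fin n → Prop} (h : NoInducedC4 R) :
    Pool.Agent.H122R2.FdF.C4Free R := by
  intro a b c d h1 h2 h3 h4
  by_contra hne
  push Not at hne
  exact h ⟨a, b, c, d, h1, h2, h3, h4, hne.1, hne.2.1, hne.2.2.1, hne.2.2.2⟩

theorem fdf_lower {n : ℕ} (R : Fin n → Fin n → Prop) (hO : IsOriented R) (hC : NoInducedC4 R) :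
    (2 / 27 : ℝ) * (n : ℝ) ^ 3 - (n : ℝ) ^ 2 / 2 + (n : ℝ) / 3 ≤ ((fdf R).card : ℝ) :=
  Pool.Agent.H122R2.FdF.fdf_card R hO fun w hw h1 =>
    Pool.Agent.H122R2.FdF.main_weighted R w hO (c4free hC) hw h1

theorem construction_upper {n : ℕ} (R : Fin n → Fin n → Prop) (hO : IsOriented R)
    (hC : NoInducedC4 R) : ((construction R).card : ℝ) ≤ 5 / 54 * (n : ℝ) ^ 3 := by
  have h1 := fdf_lower R hO hC
  rw [card_construction, choose_three]
  linarith

theorem k43free {n : ℕ} (R : Fin n → Fin n → Prop) (hO : IsOriented R)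
    (hC : NoInducedC4 R) : K43Free (construction R) := by
  intro S hS
  obtain ⟨s, hsS, hs, hx⟩ := Pool.Agent.H122R2.FdF.fdf_four R hO (c4free hC) S hS
  refine ⟨s, hsS, hs, fun hmem => ?_⟩
  have h1 : s ∈ fdf R := mem_filter.2 ⟨mem_powersetCard.2 ⟨subset_univ _, hs⟩, hx⟩
  exact (mem_sdiff.1 hmem).2 h1

/-- the residue class `i` mod 3 -/
noncomputable def cls (n i : ℕ) : Finset (Fin n) := univ.filter fun x : Fin n => (x : ℕ) % 3 = i % 3

theorem card_cls (n i : ℕ) : (cls n i).card ≤ (n + 2) / 3 := by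
  have h1 : (cls n i).card = Nat.count (fun x => x % 3 = i % 3) n := by
    rw [Nat.count_eq_card_filter_range]
    refine card_bij (fun x _ => (x : ℕ)) ?_ ?_ ?_
    · intro x hx
      exact mem_filter.2 ⟨mem_range.2 x.2, (mem_filter.1 hx).2⟩
    · intro x _ y _ h
      exact Fin.ext h
    · intro b hb
      exact ⟨⟨b, mem_range.1 (mem_filter.1 hb).1⟩, mem_filter.2 ⟨mem_univ _, (mem_filter.1 hb).2⟩, rfl⟩
  rw [h1]
  have h2 := Nat.count_modEq_card n (r := 3) (by norm_num) i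
  have h3 : Nat.count (fun x => x % 3 = i % 3) n = Nat.count (fun x => x ≡ i [MOD 3]) n := rfl
  rw [h3, h2]
  split_ifs <;> omega

/-- Turan's oriented graph -/
def turanR (n : ℕ) (x y : Fin n) : Prop := (y : ℕ) % 3 = ((x : ℕ) + 1) % 3

theorem turan_oriented (n : ℕ) : IsOriented (turanR n) := by
  intro x y h1 h2
  unfold turanR at h1 h2
  omega

theorem turan_noC4 (n : ℕ) : NoInducedC4 (turanR n) := by
  rintro ⟨a, b, c, d, h1, h2, h3, h4, -⟩
  unfold turanR at h1 h2 h3 h4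
  omega

theorem turan_fdf (n : ℕ) :
    fdf (turanR n) ⊆ (range 3).biUnion (fun i => (cls n i).powersetCard 3 ∪
      ((cls n i) ×ˢ ((cls n (i + 1)).powersetCard 2)).image (fun p => insert p.1 p.2)) := by
  intro s hs
  obtain ⟨hs3, x, hx, h⟩ := mem_filter.1 hs
  have hcard := (mem_powersetCard.1 hs3).2
  refine mem_biUnion.2 ⟨(x : ℕ) % 3, mem_range.2 (Nat.mod_lt _ (by norm_num)), mem_union.2 ?_⟩
  rcases h with h | h
  · left
    refine mem_powersetCard.2 ⟨fun y hy => mem_filter.2 ⟨mem_univ _, ?_⟩, hcard⟩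
    by_cases hyx : y = x
    · rw [hyx]; omega
    · have := h y hy hyx
      unfold turanR at this
      omega
  · right
    have hx0 : x ∈ cls n ((x : ℕ) % 3) := mem_filter.2 ⟨mem_univ _, by omega⟩
    refine mem_image.2 ⟨(x, s.erase x), mem_product.2 ⟨hx0,
      mem_powersetCard.2 ⟨fun y hy => mem_filter.2 ⟨mem_univ _, ?_⟩, ?_⟩⟩, insert_erase hx⟩
    · have := h y (mem_of_mem_erase hy) (ne_of_mem_erase hy)
      unfold turanR at this
      omega
    · rw [card_erase_of_mem hx, hcard]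

theorem turan_card (n : ℕ) : ((fdf (turanR n)).card : ℝ) ≤ 2 / 27 * ((n : ℝ) + 2) ^ 3 := by
  have h1 := card_le_card (turan_fdf n)
  set c : ℕ := (n + 2) / 3 with hc
  have h2 : ∀ i ∈ range 3, ((cls n i).powersetCard 3 ∪
      ((cls n i) ×ˢ ((cls n (i + 1)).powersetCard 2)).image (fun p => insert p.1 p.2)).card
      ≤ c.choose 3 + c * c.choose 2 := by
    intro i _
    refine (card_union_le _ _).trans (add_le_add ?_ (card_image_le.trans ?_))
    · rw [card_powersetCard]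
      exact Nat.choose_le_choose _ (card_cls n i)
    · rw [card_product, card_powersetCard]
      exact Nat.mul_le_mul (card_cls n i) (Nat.choose_le_choose _ (card_cls n (i + 1)))
  have h3 := h1.trans (card_biUnion_le.trans (sum_le_sum h2))
  rw [sum_const, card_range, smul_eq_mul] at h3
  have h4 : ((fdf (turanR n)).card : ℝ) ≤ 3 * (((c.choose 3 : ℕ) : ℝ) + c * ((c.choose 2 : ℕ) : ℝ)) := by
    exact_mod_cast h3
  have h5 : ((c.choose 2 : ℕ) : ℝ) = (c : ℝ) * ((c : ℝ) - 1) / 2 := Nat.cast_choose_two ℝ c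
  rw [choose_three, h5] at h4
  have h6 : (c : ℝ) ≤ ((n : ℝ) + 2) / 3 := by
    have : 3 * c ≤ n + 2 := by omega
    have : (3 * c : ℝ) ≤ (n : ℝ) + 2 := by exact_mod_cast this
    linarith
  have h7 : (0 : ℝ) ≤ c := by positivity
  have h8 : (c : ℝ) ^ 3 ≤ (((n : ℝ) + 2) / 3) ^ 3 := pow_le_pow_left₀ h7 h6 3
  have h9 : 3 * ((c : ℝ) ^ 3 / 6 - (c : ℝ) ^ 2 / 2 + (c : ℝ) / 3 + c * ((c : ℝ) * ((c : ℝ) - 1) / 2))
      ≤ 2 * (c : ℝ) ^ 3 := by
    rcases Nat.eq_zero_or_pos c with h0 | h0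
    · rw [h0]; norm_num
    · have : (1 : ℝ) ≤ c := by exact_mod_cast h0
      nlinarith
  have h10 : 2 * (((n : ℝ) + 2) / 3) ^ 3 = 2 / 27 * ((n : ℝ) + 2) ^ 3 := by ring
  linarith

/-- **The Fon-der-Flaass conjecture.** For every oriented graph `R` on `n` vertices without
induced oriented 4-cycle, the 3-graph given by the Fon-der-Flaass construction is `K_4^3`-free
and has at most `(5/9) n^3/6` edges; so its density is at most `5/9 + o(1)`, and the
Fon-der-Flaass 3-graph `G(R)` has density at least `4/9 - o(1)`. -/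
theorem result :
    (∀ (n : ℕ) (R : Fin n → Fin n → Prop), IsOriented R → NoInducedC4 R →
      K43Free (construction R) ∧ ((construction R).card : ℝ) ≤ 5 / 9 * ((n : ℝ) ^ 3 / 6)) ∧
    (∀ ε : ℝ, ε > 0 → ∃ N : ℕ, ∀ n : ℕ, n ≥ N → ∀ R : Fin n → Fin n → Prop,
      IsOriented R → NoInducedC4 R →
        ((construction R).card : ℝ) ≤ (5 / 9 + ε) * ((n.choose 3 : ℕ) : ℝ) ∧
        (4 / 9 - ε) * ((n.choose 3 : ℕ) : ℝ) ≤ ((fdf R).card : ℝ)) ∧
    (∀ ε : ℝ, ε > 0 → ∃ N : ℕ, ∀ n : ℕ, n ≥ N → ∃ R : Fin n → Fin n → Prop,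
      IsOriented R ∧ NoInducedC4 R ∧
        (5 / 9 - ε) * ((n.choose 3 : ℕ) : ℝ) ≤ ((construction R).card : ℝ)) := by
  refine ⟨fun n R hO hC => ⟨k43free R hO hC, ?_⟩, ?_, ?_⟩
  · have := construction_upper R hO hC
    linarith
  · intro ε hε
    obtain ⟨N, hN⟩ := exists_nat_gt (8 / ε)
    refine ⟨max N 8, fun n hn R hO hC => ?_⟩
    have hn1 : (N : ℝ) ≤ n := by exact_mod_cast (le_max_left N 8).trans hn
    have hn8 : (8 : ℝ) ≤ n := by exact_mod_cast (le_max_right N 8).trans hn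
    have he : 8 ≤ ε * n := by
      have : 8 / ε < n := lt_of_lt_of_le hN hn1
      rw [div_lt_iff₀ hε] at this
      linarith
    have hup := construction_upper R hO hC
    have hcc := card_construction R
    -- `5/54 n^3 ≤ (5/9 + ε) C(n,3)`
    have hmain : 5 / 54 * (n : ℝ) ^ 3 ≤ (5 / 9 + ε) * ((n.choose 3 : ℕ) : ℝ) := by
      rw [choose_three]
      have h1 : (n : ℝ) ^ 3 / 6 - (n : ℝ) ^ 2 / 2 ≥ (n : ℝ) ^ 3 / 12 := by nlinarith [sq_nonneg (n : ℝ)]
      have h2 : 8 * ((n : ℝ) ^ 2 / 12) ≤ ε * n * ((n : ℝ) ^ 2 / 12) :=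
        mul_le_mul_of_nonneg_right he (by positivity)
      have h3 : 0 ≤ ε * ((n : ℝ) / 3) := by positivity
      have h4 : ε * ((n : ℝ) ^ 3 / 12) ≤ ε * ((n : ℝ) ^ 3 / 6 - (n : ℝ) ^ 2 / 2) :=
        mul_le_mul_of_nonneg_left h1 hε.le
      have h5 : (0 : ℝ) ≤ n := by positivity
      nlinarith
    constructor
    · linarith
    · have := hup.trans hmain
      rw [hcc] at this
      linarith

  · intro ε hε
    obtain ⟨N, hN⟩ := exists_nat_gt (80 / ε)
    refine ⟨max N 8, fun n hn => ⟨turanR n, turan_oriented n, turan_noC4 n, ?_⟩⟩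
    have hn1 : (N : ℝ) ≤ n := by exact_mod_cast (le_max_left N 8).trans hn
    have hn8 : (8 : ℝ) ≤ n := by exact_mod_cast (le_max_right N 8).trans hn
    have he : 80 ≤ ε * n := by
      have : 80 / ε < n := lt_of_lt_of_le hN hn1
      rw [div_lt_iff₀ hε] at this
      linarith
    have h0 := turan_card n
    rw [card_construction, choose_three]
    have h1 : (n : ℝ) ^ 3 / 6 - (n : ℝ) ^ 2 / 2 ≥ (n : ℝ) ^ 3 / 12 := by
      nlinarith [sq_nonneg (n : ℝ)]
    have h2 : 80 * ((n : ℝ) ^ 2 / 12) ≤ ε * n * ((n : ℝ) ^ 2 / 12) :=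
      mul_le_mul_of_nonneg_right he (by positivity)
    have h3 : 0 ≤ ε * ((n : ℝ) / 3) := by positivity
    have h4 : ε * ((n : ℝ) ^ 3 / 12) ≤ ε * ((n : ℝ) ^ 3 / 6 - (n : ℝ) ^ 2 / 2) :=
      mul_le_mul_of_nonneg_left h1 hε.le
    nlinarith

end Pool.Agent.Results.MP_f1799f_co.FonDerFlaass
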