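import Pool.Agent.H449R2.Fl.L12
import Pool.Agent.H449R2.Fl.Copies

/-!
# Edge density plus codegree-square density of `K_4^3`-free 3-graphs

Every `K_4^3`-free 3-graph `H` on `n` vertices satisfies
`3 n |H| + ∑ d(p)^2 ≤ (4/9) n^4`, the sum over all pairs `p` of vertices (`d` the codegree).
-/

set_option autoImplicit false
set_option maxRecDepth 100000
open Finset

namespace Pool.Agent.Results.MP_f1799f_co.EdgesPlusCodegrees

/-- The 3-graph `H` has no four vertices spanning all four triples. -/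
def K43Free {n : ℕ} (H : Finset (Finset (Fin n))) : Prop :=
  ∀ S : Finset (Fin n), S.card = 4 → ∃ s ⊆ S, s.card = 3 ∧ s ∉ H

/-- The codegree of a pair `p` of vertices: the number of edges containing `p`. -/
def codeg {n : ℕ} (H : Finset (Finset (Fin n))) (p : Finset (Fin n)) : ℕ :=
  (H.filter fun s => p ⊆ s).card

open Pool.Agent.H449R2.Fl

theorem sum_ind_eq {n : ℕ} {H : Finset (Finset (Fin n))} (h3 : ∀ s ∈ H, s.card = 3)
    {a b : Fin n} (hab : a ≠ b) : ∑ c, ind H a b c = codeg H {a, b} := by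
  unfold ind codeg
  rw [← card_filter]
  refine Finset.card_bij (fun c _ => ({a, b, c} : Finset (Fin n))) ?_ ?_ ?_
  · intro c hc
    rw [mem_filter] at hc ⊢
    refine ⟨hc.2, ?_⟩
    intro z hz
    simp only [mem_insert, mem_singleton] at hz ⊢
    tauto
  · intro c hc c' hc' h
    rw [mem_filter] at hc hc'
    have hd := ind_distinct h3 (a := a) (b := b) (c := c) (by unfold ind; rw [if_pos hc.2])
    have hm : c ∈ ({a, b, c'} : Finset (Fin n)) := by rw [← h]; simp
    simp only [mem_insert, mem_singleton] at hm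
    rcases hm with hm | hm | hm
    · exact absurd hm hd.2.1.symm
    · exact absurd hm hd.2.2.symm
    · exact hm
  · intro s hs
    rw [mem_filter] at hs
    obtain ⟨hs, hsub⟩ := hs
    have h1 : (s \ {a, b}).card = 1 := by
      rw [card_sdiff_of_subset hsub, h3 s hs, card_pair hab]
    obtain ⟨c, hc⟩ := Finset.card_eq_one.mp h1
    have h2 : ({a, b, c} : Finset (Fin n)) = s := by
      have h4 : s = {a, b} ∪ (s \ {a, b}) := (union_sdiff_of_subset hsub).symm
      rw [h4, hc]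
      ext z
      simp only [mem_insert, mem_singleton, mem_union]
      tauto
    exact ⟨c, mem_filter.mpr ⟨mem_univ _, h2 ▸ hs⟩, h2⟩

theorem sum_pairs {n : ℕ} (F : Finset (Fin n) → ℕ) :
    ∑ p ∈ (univ : Finset (Fin n)).offDiag, F {p.1, p.2} =
      2 * ∑ p ∈ (univ : Finset (Fin n)).powersetCard 2, F p := by
  rw [← Finset.sum_fiberwise_of_maps_to (t := (univ : Finset (Fin n)).powersetCard 2)
    (g := fun p : Fin n × Fin n => ({p.1, p.2} : Finset (Fin n)))]
  · rw [mul_sum]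
    refine sum_congr rfl fun y hy => ?_
    rw [mem_powersetCard] at hy
    obtain ⟨u, v, huv, rfl⟩ := Finset.card_eq_two.mp hy.2
    have h1 : ((univ : Finset (Fin n)).offDiag.filter
        fun p : Fin n × Fin n => ({p.1, p.2} : Finset (Fin n)) = {u, v}) = {(u, v), (v, u)} := by
      ext ⟨a, b⟩
      simp only [mem_filter, mem_offDiag, mem_univ, true_and, mem_insert, mem_singleton,
        Prod.mk.injEq]
      constructor
      · rintro ⟨hab, h⟩
        have ha : a ∈ ({u, v} : Finset (Fin n)) := by rw [← h]; simp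
        have hb : b ∈ ({u, v} : Finset (Fin n)) := by rw [← h]; simp
        simp only [mem_insert, mem_singleton] at ha hb
        rcases ha with rfl | rfl <;> rcases hb with rfl | rfl <;> simp_all
      · rintro (⟨rfl, rfl⟩ | ⟨rfl, rfl⟩)
        · exact ⟨huv, rfl⟩
        · exact ⟨huv.symm, pair_comm _ _⟩
    rw [h1, sum_pair (by simp [huv])]
    rw [pair_comm v u]
    ring
  · intro p hp
    rw [mem_offDiag] at hp
    rw [mem_powersetCard]
    exact ⟨subset_univ _, card_pair hp.2.2⟩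

theorem sum_codeg_sq {n : ℕ} {H : Finset (Finset (Fin n))} (h3 : ∀ s ∈ H, s.card = 3) :
    ∑ a, ∑ b, (∑ c, ind H a b c) ^ 2 =
      2 * ∑ p ∈ (univ : Finset (Fin n)).powersetCard 2, codeg H p ^ 2 := by
  rw [← sum_pairs fun p => codeg H p ^ 2]
  rw [← Fintype.sum_prod_type' (f := fun a b => (∑ c, ind H a b c) ^ 2)]
  rw [← Finset.sum_subset (Finset.subset_univ (univ : Finset (Fin n)).offDiag)]
  · refine sum_congr rfl fun p hp => ?_
    rw [mem_offDiag] at hp
    rw [sum_ind_eq h3 hp.2.2]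
  · rintro ⟨a, b⟩ _ hp
    rw [mem_offDiag] at hp
    have hab : a = b := by
      by_contra h
      exact hp ⟨mem_univ _, mem_univ _, h⟩
    subst hab
    have : ∀ c, ind H a a c = 0 := fun c => (ind_pat h3).dg a c
    simp [this]

theorem g_eq {V : Type} {e : V → V → V → ℕ} (he : Pat e) (a b c d : V) :
    L12.g (sg e a b c d) = 4947802324992 * (e a b c + e a b c * e a b d) := by
  have l0 := he.le1 a b c
  have l1 := he.le1 a b d
  have l2 := he.le1 a c d
  have l3 := he.le1 b c d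
  unfold sg
  interval_cases h0 : e a b c <;> interval_cases h1 : e a b d <;>
    interval_cases h2 : e a c d <;> interval_cases h3 : e b c d <;> rfl

theorem bound_nat {n : ℕ} {H : Finset (Finset (Fin n))} (h3 : ∀ s ∈ H, s.card = 3)
    (hK : K43Free H) :
    9 * n ^ 2 * (3 * n * H.card + ∑ p ∈ (univ : Finset (Fin n)).powersetCard 2, codeg H p ^ 2) ≤
      4 * n ^ 6 := by
  have hb := L12.bound (ind_pat h3) (hasK4_false (K4free_sg h3 hK))
  have h1 : ∑ a : Fin n, ∑ b : Fin n, ∑ c : Fin n, ∑ d : Fin n, ∑ _x : Fin n, ∑ _y : Fin n,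
      (L12.g (sg (ind H) a b c d) : ℤ) =
      4947802324992 * ((n : ℤ) ^ 2 * ((n : ℤ) * (6 * (H.card : ℤ)) +
        2 * ((∑ p ∈ (univ : Finset (Fin n)).powersetCard 2, codeg H p ^ 2 : ℕ) : ℤ))) := by
    have e1 : ∑ a : Fin n, ∑ b : Fin n, ∑ c : Fin n, (ind H a b c : ℤ) = 6 * (H.card : ℤ) := by
      exact_mod_cast sum_ind h3
    have e2 : ∑ a : Fin n, ∑ b : Fin n, ∑ c : Fin n, ∑ d : Fin n,
        ((ind H a b c : ℤ) * (ind H a b d : ℤ)) =
        2 * ((∑ p ∈ (univ : Finset (Fin n)).powersetCard 2, codeg H p ^ 2 : ℕ) : ℤ) := by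
      have := sum_codeg_sq h3
      have e3 : ∀ a b : Fin n, ∑ c : Fin n, ∑ d : Fin n, ((ind H a b c : ℤ) * (ind H a b d : ℤ)) =
          (((∑ c, ind H a b c) ^ 2 : ℕ) : ℤ) := fun a b => by
        push_cast
        rw [sq, sum_mul_sum]
      simp only [e3]
      have h5 : ((∑ a : Fin n, ∑ b : Fin n, (∑ c, ind H a b c) ^ 2 : ℕ) : ℤ) =
          ((2 * ∑ p ∈ (univ : Finset (Fin n)).powersetCard 2, codeg H p ^ 2 : ℕ) : ℤ) := by
        rw [this]
      rw [Nat.cast_sum] at h5
      simp only [Nat.cast_sum (s := univ) (f := fun b => (∑ c, ind H _ b c) ^ 2)] at h5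
      rw [Nat.cast_mul] at h5
      exact h5
    rw [← e1, ← e2]
    simp only [g_eq (ind_pat h3), sum_const, card_univ, Fintype.card_fin, nsmul_eq_mul]
    push_cast
    simp only [mul_add, sum_add_distrib, ← mul_sum, sum_const, card_univ, Fintype.card_fin,
      nsmul_eq_mul]
    ring
  rw [h1, Fintype.card_fin] at hb
  have h2 : 9 * (n : ℤ) ^ 2 * (3 * (n : ℤ) * (H.card : ℤ) +
      ((∑ p ∈ (univ : Finset (Fin n)).powersetCard 2, codeg H p ^ 2 : ℕ) : ℤ)) ≤
      4 * (n : ℤ) ^ 6 := by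
    nlinarith [hb]
  exact_mod_cast h2

/-- For every `K_4^3`-free 3-graph `H` on `n` vertices, `3 n |H| + ∑ d(p)^2 ≤ (4/9) n^4`, the sum
over all pairs `p` of vertices. -/
theorem result (n : ℕ) (H : Finset (Finset (Fin n))) (h3 : ∀ s ∈ H, s.card = 3)
    (hK : K43Free H) :
    3 * (n : ℝ) * (H.card : ℝ) +
      ∑ p ∈ (Finset.univ : Finset (Fin n)).powersetCard 2, (codeg H p : ℝ) ^ 2 ≤
      4 / 9 * (n : ℝ) ^ 4 := by
  rcases Nat.eq_zero_or_pos n with h0 | hn
  · subst h0
    have h1 : (Finset.univ : Finset (Fin 0)).powersetCard 2 = ∅ := by decide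
    rw [h1]
    simp
  have hn' : (0 : ℝ) < n := by exact_mod_cast hn
  have h1 : 9 * (n : ℝ) ^ 2 * (3 * (n : ℝ) * (H.card : ℝ) +
      ∑ p ∈ (Finset.univ : Finset (Fin n)).powersetCard 2, (codeg H p : ℝ) ^ 2) ≤
      4 * (n : ℝ) ^ 6 := by
    exact_mod_cast bound_nat h3 hK
  have h2 : 0 < 9 * (n : ℝ) ^ 2 := by positivity
  have h3' : 9 * (n : ℝ) ^ 2 * (3 * (n : ℝ) * (H.card : ℝ) +
      ∑ p ∈ (Finset.univ : Finset (Fin n)).powersetCard 2, (codeg H p : ℝ) ^ 2) ≤
      9 * (n : ℝ) ^ 2 * (4 / 9 * (n : ℝ) ^ 4) := by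
    calc _ ≤ 4 * (n : ℝ) ^ 6 := h1
      _ = _ := by ring
  exact le_of_mul_le_mul_left h3' h2

end Pool.Agent.Results.MP_f1799f_co.EdgesPlusCodegrees
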