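import Pool.Agent.H449R2.Fl.C9
import Pool.Agent.H449R2.Fl.C21
import Pool.Agent.H449R2.Fl.Copies
import Pool.Agent.H449R2.Fl.Auto

/-!
# Turán's `(3,4)`-problem when one five-vertex 3-graph has few induced copies

For each of two explicit 3-graphs `F₁, F₂` on five vertices, every `K_4^3`-free 3-graph on `n`
vertices has at most `(5/54) n^3 + O(n^2)` edges plus `4 / n^2` times the number of its induced
copies of `Fᵢ`.
-/

set_option autoImplicit false
set_option maxRecDepth 100000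
open Finset
open scoped Classical

namespace Pool.Agent.Results.MP_f1799f_co.FiveVertex

/-- The 3-graph `H` has no four vertices spanning all four triples. -/
def K43Free {n : ℕ} (H : Finset (Finset (Fin n))) : Prop :=
  ∀ S : Finset (Fin n), S.card = 4 → ∃ s ⊆ S, s.card = 3 ∧ s ∉ H

/-- `F₁`: the link of the vertex `0` is `K_4` minus the edge `34`, and `1,2,3,4` span no edge. -/
def F₁ : Finset (Finset (Fin 5)) := {{0, 1, 2}, {0, 1, 3}, {0, 1, 4}, {0, 2, 3}, {0, 2, 4}}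

/-- `F₂`: the link of the vertex `4` is `K_4` minus the edge `12`, and `0,1,2,3` span exactly one
edge, namely `012`. -/
def F₂ : Finset (Finset (Fin 5)) :=
  {{0, 1, 4}, {0, 2, 4}, {0, 3, 4}, {1, 3, 4}, {2, 3, 4}, {0, 1, 2}}

/-- The set `S` of vertices induces in `H` a copy of the 3-graph `F`. -/
def InducesCopy {n : ℕ} (F : Finset (Finset (Fin 5))) (H : Finset (Finset (Fin n)))
    (S : Finset (Fin n)) : Prop :=
  ∃ f : Fin 5 → Fin n, Function.Injective f ∧ Finset.univ.image f = S ∧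
    ∀ t : Finset (Fin 5), t.card = 3 → (t.image f ∈ H ↔ t ∈ F)

/-- The number of five-element sets of vertices which induce in `H` a copy of `F`. -/
noncomputable def copies {n : ℕ} (F : Finset (Finset (Fin 5))) (H : Finset (Finset (Fin n))) : ℕ :=
  (Finset.univ.filter fun S : Finset (Fin n) => InducesCopy F H S).card

open Pool.Agent.H449R2.Fl

theorem mask1 : ∀ i j l : Fin 5, i ≠ j → i ≠ l → j ≠ l →
    (pe 55 i.val j.val l.val = 1 ↔ ({i, j, l} : Finset (Fin 5)) ∈ F₁) := by decide +kernel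

theorem mask2 : ∀ i j l : Fin 5, i ≠ j → i ≠ l → j ≠ l →
    (pe 945 i.val j.val l.val = 1 ↔ ({i, j, l} : Finset (Fin 5)) ∈ F₂) := by decide +kernel

theorem aut1 : (univ.filter fun g : Fin 5 → Fin 5 =>
    Cop (fun i j l : Fin 5 => pe 55 i.val j.val l.val) 55 g).card ≤ 4 := by
  refine (Finset.card_le_card ?_).trans auto_55
  intro g hg
  rw [mem_filter] at hg ⊢
  exact ⟨mem_univ _, hg.2.2, hg.2.1⟩

theorem aut2 : (univ.filter fun g : Fin 5 → Fin 5 =>
    Cop (fun i j l : Fin 5 => pe 945 i.val j.val l.val) 945 g).card ≤ 2 := by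
  refine (Finset.card_le_card ?_).trans auto_945
  intro g hg
  rw [mem_filter] at hg ⊢
  exact ⟨mem_univ _, hg.2.2, hg.2.1⟩

section
variable {V : Type} [DecidableEq V] {H : Finset (Finset V)}

theorem pen1 (h3 : ∀ s ∈ H, s.card = 3) (a b c d x : V) :
    (C9.pen (sg (ind H) a b c d) (ta (ind H) a b c d x) : ℤ) =
      14155776 * (if mk5 (ind H) a b c d x = 55 then 1 else 0 : ℕ) := by
  have key := mk5_iff (ind_pat h3) 55 7 3 rfl rfl (by norm_num) a b c d x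
  by_cases h : mk5 (ind H) a b c d x = 55
  · obtain ⟨h1, h2⟩ := key.mp h
    rw [h1, h2, if_pos h]
    rfl
  · have h1 : ¬ (sg (ind H) a b c d = 7 ∧ ta (ind H) a b c d x = 3) := fun h' => h (key.mpr h')
    rw [if_neg h]
    have h2 : (Nat.beq (sg (ind H) a b c d) 7 && Nat.beq (ta (ind H) a b c d x) 3) = false := by
      rw [Bool.eq_false_iff]
      intro h'
      rw [Bool.and_eq_true] at h'
      exact h1 ⟨Nat.eq_of_beq_eq_true h'.1, Nat.eq_of_beq_eq_true h'.2⟩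
    unfold C9.pen
    rw [h2]
    simp

theorem pen2 (h3 : ∀ s ∈ H, s.card = 3) (a b c d x : V) :
    (C21.pen (sg (ind H) a b c d) (ta (ind H) a b c d x) : ℤ) =
      566231040 * (if mk5 (ind H) a b c d x = 945 then 1 else 0 : ℕ) := by
  have key := mk5_iff (ind_pat h3) 945 1 55 rfl rfl (by norm_num) a b c d x
  by_cases h : mk5 (ind H) a b c d x = 945
  · obtain ⟨h1, h2⟩ := key.mp h
    rw [h1, h2, if_pos h]
    rfl
  · have h1 : ¬ (sg (ind H) a b c d = 1 ∧ ta (ind H) a b c d x = 55) := fun h' => h (key.mpr h')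
    rw [if_neg h]
    have h2 : (Nat.beq (sg (ind H) a b c d) 1 && Nat.beq (ta (ind H) a b c d x) 55) = false := by
      rw [Bool.eq_false_iff]
      intro h'
      rw [Bool.and_eq_true] at h'
      exact h1 ⟨Nat.eq_of_beq_eq_true h'.1, Nat.eq_of_beq_eq_true h'.2⟩
    unfold C21.pen
    rw [h2]
    simp

theorem dist1 (h3 : ∀ s ∈ H, s.card = 3) (a b c d x : V) (h : mk5 (ind H) a b c d x = 55)
    (hdx : d ≠ x) : Function.Injective (![a, b, c, d, x] : Fin 5 → V) := by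
  have p := pe_tuple (ind_pat h3) ![a, b, c, d, x] 55 h
  obtain ⟨n1, n2, n3⟩ := ind_distinct h3 (show ind H a b c = 1 from p 0 1 2)
  obtain ⟨-, n4, n5⟩ := ind_distinct h3 (show ind H a b d = 1 from p 0 1 3)
  obtain ⟨-, -, n6⟩ := ind_distinct h3 (show ind H a c d = 1 from p 0 2 3)
  obtain ⟨-, n7, n8⟩ := ind_distinct h3 (show ind H a b x = 1 from p 0 1 4)
  obtain ⟨-, -, n9⟩ := ind_distinct h3 (show ind H a c x = 1 from p 0 2 4)
  exact inj5 n1 n2 n4 n7 n3 n5 n8 n6 n9 hdx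

theorem dist2 (h3 : ∀ s ∈ H, s.card = 3) (a b c d x : V) (h : mk5 (ind H) a b c d x = 945) :
    Function.Injective (![a, b, c, d, x] : Fin 5 → V) := by
  have p := pe_tuple (ind_pat h3) ![a, b, c, d, x] 945 h
  obtain ⟨n1, n2, n3⟩ := ind_distinct h3 (show ind H a b c = 1 from p 0 1 2)
  obtain ⟨-, n4, n5⟩ := ind_distinct h3 (show ind H a b x = 1 from p 0 1 4)
  obtain ⟨-, -, n6⟩ := ind_distinct h3 (show ind H a c x = 1 from p 0 2 4)
  obtain ⟨n7, -, n8⟩ := ind_distinct h3 (show ind H a d x = 1 from p 0 3 4)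
  obtain ⟨n9, -, -⟩ := ind_distinct h3 (show ind H b d x = 1 from p 1 3 4)
  obtain ⟨n10, -, -⟩ := ind_distinct h3 (show ind H c d x = 1 from p 2 3 4)
  exact inj5 n1 n2 n7 n4 n3 n9 n5 n10 n6 n8

end

theorem bound1 {n : ℕ} {H : Finset (Finset (Fin n))} (h3 : ∀ s ∈ H, s.card = 3)
    (hK : K43Free H) : 54 * n ^ 3 * H.card ≤ 5 * n ^ 6 + 54 * n * (4 * copies F₁ H + n ^ 4) := by
  have hb := C9.bound (ind_pat h3) (hasK4_false (K4free_sg h3 hK))
  have h1 : ∑ a : Fin n, ∑ b : Fin n, ∑ c : Fin n, (ind H a b c : ℤ) = 6 * (H.card : ℤ) := by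
    exact_mod_cast sum_ind h3
  have h2 : ∑ a : Fin n, ∑ b : Fin n, ∑ c : Fin n, ∑ d : Fin n, ∑ x : Fin n,
      (C9.pen (sg (ind H) a b c d) (ta (ind H) a b c d x) : ℤ) =
      14155776 * ((∑ a : Fin n, ∑ b : Fin n, ∑ c : Fin n, ∑ d : Fin n, ∑ x : Fin n,
        (if mk5 (ind H) a b c d x = 55 then 1 else 0) : ℕ) : ℤ) := by
    push_cast
    simp only [mul_sum]
    refine sum_congr rfl fun a _ => sum_congr rfl fun b _ => sum_congr rfl fun c _ =>
      sum_congr rfl fun d _ => sum_congr rfl fun x _ => ?_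
    rw [pen1 h3]
    push_cast
    rfl
  have h4 := (tuples_le' (H := H) 55 fun a b c d x h hd => dist1 h3 a b c d x h hd).trans
    (Nat.add_le_add_right (copies_le h3 F₁ 55 4 mask1 aut1) _)
  rw [Fintype.card_fin] at h4
  have h5 : ((∑ a : Fin n, ∑ b : Fin n, ∑ c : Fin n, ∑ d : Fin n, ∑ x : Fin n,
        (if mk5 (ind H) a b c d x = 55 then 1 else 0) : ℕ) : ℤ) ≤
        4 * (copies F₁ H : ℤ) + (n : ℤ) ^ 4 := by
    have : ∑ a : Fin n, ∑ b : Fin n, ∑ c : Fin n, ∑ d : Fin n, ∑ x : Fin n,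
        (if mk5 (ind H) a b c d x = 55 then 1 else 0) ≤ 4 * copies F₁ H + n ^ 4 := h4
    exact_mod_cast this
  rw [h1, h2, Fintype.card_fin] at hb
  have hn : (0 : ℤ) ≤ (n : ℤ) := Int.natCast_nonneg _
  have h6 := mul_le_mul_of_nonneg_left h5 hn
  have h7 : 54 * (n : ℤ) ^ 3 * (H.card : ℤ) ≤
      5 * (n : ℤ) ^ 6 + 54 * (n : ℤ) * (4 * (copies F₁ H : ℤ) + (n : ℤ) ^ 4) := by
    nlinarith [hb, h6]
  exact_mod_cast h7

theorem bound2 {n : ℕ} {H : Finset (Finset (Fin n))} (h3 : ∀ s ∈ H, s.card = 3)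
    (hK : K43Free H) : 54 * n ^ 3 * H.card ≤ 5 * n ^ 6 + 54 * n * (4 * copies F₂ H) := by
  have hb := C21.bound (ind_pat h3) (hasK4_false (K4free_sg h3 hK))
  have h1 : ∑ a : Fin n, ∑ b : Fin n, ∑ c : Fin n, (ind H a b c : ℤ) = 6 * (H.card : ℤ) := by
    exact_mod_cast sum_ind h3
  have h2 : ∑ a : Fin n, ∑ b : Fin n, ∑ c : Fin n, ∑ d : Fin n, ∑ x : Fin n,
      (C21.pen (sg (ind H) a b c d) (ta (ind H) a b c d x) : ℤ) =
      566231040 * ((∑ a : Fin n, ∑ b : Fin n, ∑ c : Fin n, ∑ d : Fin n, ∑ x : Fin n,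
        (if mk5 (ind H) a b c d x = 945 then 1 else 0) : ℕ) : ℤ) := by
    push_cast
    simp only [mul_sum]
    refine sum_congr rfl fun a _ => sum_congr rfl fun b _ => sum_congr rfl fun c _ =>
      sum_congr rfl fun d _ => sum_congr rfl fun x _ => ?_
    rw [pen2 h3]
    push_cast
    rfl
  have h4 := (tuples_le (H := H) 945 fun a b c d x h => dist2 h3 a b c d x h).trans
    (copies_le h3 F₂ 945 2 mask2 aut2)
  have h5 : ((∑ a : Fin n, ∑ b : Fin n, ∑ c : Fin n, ∑ d : Fin n, ∑ x : Fin n,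
        (if mk5 (ind H) a b c d x = 945 then 1 else 0) : ℕ) : ℤ) ≤ 2 * (copies F₂ H : ℤ) := by
    have : ∑ a : Fin n, ∑ b : Fin n, ∑ c : Fin n, ∑ d : Fin n, ∑ x : Fin n,
        (if mk5 (ind H) a b c d x = 945 then 1 else 0) ≤ 2 * copies F₂ H := h4
    exact_mod_cast this
  rw [h1, h2, Fintype.card_fin] at hb
  have hn : (0 : ℤ) ≤ (n : ℤ) := Int.natCast_nonneg _
  have h6 := mul_le_mul_of_nonneg_left h5 hn
  have h7 : 54 * (n : ℤ) ^ 3 * (H.card : ℤ) ≤
      5 * (n : ℤ) ^ 6 + 54 * (n : ℤ) * (4 * (copies F₂ H : ℤ)) := by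
    nlinarith [hb, h6]
  exact_mod_cast h7

/-- For every `K_4^3`-free 3-graph `H` on `n` vertices,
`|H| ≤ (5/54) n^3 + n^2 + 4 N(F₁) / n^2` and `|H| ≤ (5/54) n^3 + 4 N(F₂) / n^2`, where `N(F)` is
the number of induced copies of `F` in `H`. -/
theorem result (n : ℕ) (H : Finset (Finset (Fin n))) (h3 : ∀ s ∈ H, s.card = 3)
    (hK : K43Free H) :
    (H.card : ℝ) ≤ 5 / 54 * (n : ℝ) ^ 3 + (n : ℝ) ^ 2 + 4 * (copies F₁ H : ℝ) / (n : ℝ) ^ 2 ∧
    (H.card : ℝ) ≤ 5 / 54 * (n : ℝ) ^ 3 + 4 * (copies F₂ H : ℝ) / (n : ℝ) ^ 2 := by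
  rcases Nat.eq_zero_or_pos n with h0 | hn
  · subst h0
    have hH : H = ∅ := by
      rw [Finset.eq_empty_iff_forall_notMem]
      intro s hs
      have h1 := h3 s hs
      have h2 := Finset.card_le_univ s
      rw [Fintype.card_fin] at h2
      omega
    subst hH
    simp
  have hn' : (0 : ℝ) < n := by exact_mod_cast hn
  constructor
  · have h1 : 54 * (n : ℝ) ^ 3 * (H.card : ℝ) ≤
        5 * (n : ℝ) ^ 6 + 54 * (n : ℝ) * (4 * (copies F₁ H : ℝ) + (n : ℝ) ^ 4) := by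
      exact_mod_cast bound1 h3 hK
    have h2 : 5 / 54 * (n : ℝ) ^ 3 + (n : ℝ) ^ 2 + 4 * (copies F₁ H : ℝ) / (n : ℝ) ^ 2 =
        (5 * (n : ℝ) ^ 6 + 54 * (n : ℝ) * (4 * (copies F₁ H : ℝ) + (n : ℝ) ^ 4)) /
          (54 * (n : ℝ) ^ 3) := by
      field_simp
      ring
    rw [h2, le_div_iff₀ (by positivity)]
    linarith
  · have h1 : 54 * (n : ℝ) ^ 3 * (H.card : ℝ) ≤
        5 * (n : ℝ) ^ 6 + 54 * (n : ℝ) * (4 * (copies F₂ H : ℝ)) := by
      exact_mod_cast bound2 h3 hK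
    have h2 : 5 / 54 * (n : ℝ) ^ 3 + 4 * (copies F₂ H : ℝ) / (n : ℝ) ^ 2 =
        (5 * (n : ℝ) ^ 6 + 54 * (n : ℝ) * (4 * (copies F₂ H : ℝ))) / (54 * (n : ℝ) ^ 3) := by
      field_simp
    rw [h2, le_div_iff₀ (by positivity)]
    linarith

end Pool.Agent.Results.MP_f1799f_co.FiveVertex
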